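import Pool.Agent.Helper76.PB.GoalsV
import Pool.Agent.Helper96.PB.XLIN
import Pool.Agent.Helper79.PP.PVIS

/-!
# Project B: general lemmas for `V_LINE`
-/

set_option autoImplicit false
set_option linter.unusedSectionVars false

namespace Pool.Agent.Helper44.PB

open NumberField Polynomial Module IsDedekindDomain
open Pool.Agent.Helper51.RP Pool.Agent.Helper42.RD Pool.Agent.Helper42.PP Pool.Agent.Helper42.PP1
open Pool.Agent.Helper42.PB Pool.Agent.Helper76.PB
open Pool.Agent.Helper40.RS (bel gw val_smul bel_smul)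
open Pool.Agent.Helper40.RD (valW ordW bel_of_above)
open Pool.Agent.Helper32.PP (val_gal bel_gw norm_coe e_ne prod_lt prod_le' bel_bel mem_up)
open Pool.Agent.Helper96.PB (mem_upZ)

theorem up_eq_upZ {K : Type} (F : Type) [Field K] [NumberField K] [Field F] [NumberField F]
    [Algebra K F] (S : Finset (HeightOneSpectrum (𝓞 K))) :
    up F S = upZ F (S : Set (HeightOneSpectrum (𝓞 K))) := rfl

theorem ex_bel {E L : Type} [Field E] [NumberField E] [Field L] [NumberField L] [Algebra E L]
    [IsGalois E L] (w : HeightOneSpectrum (𝓞 E)) :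
    ∃ W : HeightOneSpectrum (𝓞 L), bel E W = w := by
  obtain ⟨-, -, -, -, -, h, -⟩ := Pool.Agent.Helper16.PP.p_upr 2 E L ∅
  obtain ⟨W, hW⟩ := h w
  exact ⟨W, bel_of_above hW⟩

theorem ex_unif {F : Type} [Field F] [NumberField F] (v : HeightOneSpectrum (𝓞 F)) :
    ∃ x : F, ordv v x = 1 := by
  obtain ⟨x, hx⟩ := v.valuation_exists_uniformizer F
  refine ⟨x, ?_⟩
  unfold ordv
  rw [hx]
  simp

theorem above_of_bel {F E : Type} [Field F] [NumberField F] [Field E] [NumberField E]
    [Algebra F E] {W : HeightOneSpectrum (𝓞 E)} {v : HeightOneSpectrum (𝓞 F)}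
    (h : bel F W = v) : Above W v := by
  rw [← h]
  rfl

section unr

variable {F E L : Type} [Field F] [NumberField F] [Field E] [NumberField E] [Field L]
  [NumberField L] [Algebra F E] [Algebra F L] [Algebra E L] [IsScalarTower F E L]

/-- Unramified primes in a tower. -/
theorem unr_tower (W : HeightOneSpectrum (𝓞 L))
    (h : ∀ x : F, ordv W (algebraMap F L x) = ordv (bel F W) x) :
    (∀ x : F, ordv (bel E W) (algebraMap F E x) = ordv (bel F W) x) ∧
      ∀ x : E, ordv W (algebraMap E L x) = ordv (bel E W) x := by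
  obtain ⟨π, hπ⟩ := ex_unif (bel F W)
  have hb : bel F (bel E W) = bel F W := bel_bel F W
  have h1 : ∀ x : F, ordv W (algebraMap F L x) =
      ((bel E W).asIdeal.ramificationIdx' W.asIdeal : ℤ) *
        (((bel F (bel E W)).asIdeal.ramificationIdx' (bel E W).asIdeal : ℤ) *
          ordv (bel F W) x) := by
    intro x
    rw [IsScalarTower.algebraMap_apply F E L, ordW, ordW, hb]
  have h2 := h1 π
  rw [h π, hπ, mul_one] at h2
  have h3 : (((bel E W).asIdeal.ramificationIdx' W.asIdeal : ℕ) : ℤ) = 1 ∧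
      (((bel F (bel E W)).asIdeal.ramificationIdx' (bel E W).asIdeal : ℕ) : ℤ) = 1 := by
    have h4 : 1 = (bel E W).asIdeal.ramificationIdx' W.asIdeal *
        (bel F (bel E W)).asIdeal.ramificationIdx' (bel E W).asIdeal := by
      exact_mod_cast h2
    have h5 := Nat.eq_one_of_mul_eq_one_right h4.symm
    have h6 := Nat.eq_one_of_mul_eq_one_left h4.symm
    exact ⟨by exact_mod_cast h5, by exact_mod_cast h6⟩
  refine ⟨fun x => ?_, fun x => ?_⟩
  · rw [ordW, h3.2, one_mul, hb]
  · rw [ordW, h3.1, one_mul]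

theorem unrZ_low [IsGalois E L] {Z : Set (HeightOneSpectrum (𝓞 F))} (h : UnrZ F L Z) :
    UnrZ F E Z := by
  intro v hv W hW x
  obtain ⟨W', hW'⟩ := ex_bel (L := L) W
  have hb : bel F W' = v := by
    rw [← bel_bel F (E := E), hW', bel_of_above hW]
  have h1 := (unr_tower (F := F) (E := E) W' (fun x => by
    rw [hb]
    exact h v hv W' (above_of_bel hb) x)).1 x
  rw [hW', hb] at h1
  exact h1

theorem unrZ_up {Z : Set (HeightOneSpectrum (𝓞 F))} (h : UnrZ F L Z) :
    UnrZ E L (upZ E Z) := by
  intro w hw W hW x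
  have hb : bel E W = w := bel_of_above hW
  have hv : bel F W ∉ Z := by
    intro h0
    apply hw
    rw [mem_upZ, ← hb, bel_bel]
    exact h0
  have h1 := (unr_tower (F := F) (E := E) W (fun x => h _ hv W rfl x)).2 x
  rw [hb] at h1
  exact h1

theorem upZ_upZ (Z : Set (HeightOneSpectrum (𝓞 F))) : upZ L (upZ E Z) = upZ L Z := by
  ext W
  rw [mem_upZ, mem_upZ, mem_upZ, bel_bel]

end unr

/-- Principality is invariant under isomorphisms. -/
theorem pr_equiv {K F F' : Type} [Field K] [NumberField K] [Field F] [NumberField F] [Field F']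
    [NumberField F'] [Algebra K F] [Algebra K F'] (e : F ≃ₐ[K] F')
    (S : Finset (HeightOneSpectrum (𝓞 K)))
    (h : ∀ n : HeightOneSpectrum (𝓞 F) →₀ ℤ, ∃ x : Fˣ, ∀ w ∉ up F S, ordv w (x : F) = n w) :
    ∀ n : HeightOneSpectrum (𝓞 F') →₀ ℤ, ∃ x : F'ˣ, ∀ w ∉ up F' S, ordv w (x : F') = n w := by
  let alg : Algebra F F' := (e : F →+* F').toAlgebra
  have hmap : ∀ x : F, algebraMap F F' x = e x := fun x => rfl
  have tow : IsScalarTower K F F' := IsScalarTower.of_algebraMap_eq fun x => by
    rw [hmap, e.commutes]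
  -- the ramification indices are one
  have he : ∀ (W : HeightOneSpectrum (𝓞 F')) (x : F),
      ordv W (e x) = ordv (bel F W) x := by
    intro W x
    obtain ⟨π, hπ⟩ := ex_unif W
    have h1 := ordW (M := F) W (e.symm π)
    rw [hmap, e.apply_symm_apply, hπ] at h1
    have h2 : (((bel F W).asIdeal.ramificationIdx' W.asIdeal : ℕ) : ℤ) = 1 := by
      rcases Int.eq_one_or_neg_one_of_mul_eq_one h1.symm with h4 | h4
      · exact h4
      · exfalso
        have := Int.natCast_nonneg ((bel F W).asIdeal.ramificationIdx' W.asIdeal)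
        omega
    rw [← hmap, ordW, h2, one_mul]
  have hval : ∀ (W : HeightOneSpectrum (𝓞 F')) (x : F),
      W.valuation F' (e x) < 1 ↔ (bel F W).valuation F x < 1 := by
    intro W x
    rw [← hmap, valW]
    exact pow_lt_one_iff (e_ne W)
  have hinj : Function.Injective (fun W : HeightOneSpectrum (𝓞 F') => bel F W) := by
    intro W W' hWW
    have hWW' : bel F W = bel F W' := hWW
    apply HeightOneSpectrum.ext
    ext x
    rw [← W.valuation_lt_one_iff_mem (K := F'), ← W'.valuation_lt_one_iff_mem (K := F')]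
    have h1 : algebraMap (𝓞 F') F' x = e (e.symm (algebraMap (𝓞 F') F' x)) :=
      (e.apply_symm_apply _).symm
    show W.valuation F' (algebraMap (𝓞 F') F' x) < 1 ↔
      W'.valuation F' (algebraMap (𝓞 F') F' x) < 1
    rw [h1, hval, hval, hWW']
  intro n
  obtain ⟨x, hx⟩ := h (n.mapDomain (fun W : HeightOneSpectrum (𝓞 F') => bel F W))
  refine ⟨Units.map ((e : F →+* F') : F →* F') x, fun w hw => ?_⟩
  have h1 : bel F w ∉ up F S := by
    intro h0
    apply hw
    rw [mem_up] at h0 ⊢
    rwa [← bel_bel K (E := F)]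
  have h2 := hx _ h1
  rw [Finsupp.mapDomain_apply hinj] at h2
  rw [← h2]
  exact he w x

section galois

variable {K E : Type} [Field K] [NumberField K] [Field E] [NumberField E] [Algebra K E]
  [IsGalois K E] {p : ℕ} [hp : Fact p.Prime]

theorem gw_up (S : Finset (HeightOneSpectrum (𝓞 K))) (g : E ≃ₐ[K] E)
    (W : HeightOneSpectrum (𝓞 E)) : gw g W ∈ up E S ↔ W ∈ up E S := by
  rw [mem_up, mem_up, bel_gw]

/-- The composition of a functional of tame local nature with the norm. -/
theorem kil_norm (S : Finset (HeightOneSpectrum (𝓞 K))) {σ₀ : Kˣ → ZMod p}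
    (h : KilT p (S : Set (HeightOneSpectrum (𝓞 K))) σ₀) :
    Kil p (up E S) (fun x : Eˣ => σ₀ (nrm K E x)) := by
  refine ⟨fun x y => ?_, fun x hx => ?_, fun x hx => ?_⟩
  · show σ₀ (nrm K E (x * y)) = _
    rw [map_mul, h.hom]
  · apply h.loc
    intro v hv _
    obtain ⟨y, hy⟩ := hx
    refine ⟨((nrm K E y : Kˣ) : K), ?_⟩
    obtain ⟨W, rfl⟩ := ex_bel (L := E) v
    have h2 : W.valuation E (algebraMap K E (((nrm K E (x * y ^ p) : Kˣ) : K) - 1)) < 1 := by
      rw [map_sub, map_one, norm_coe]
      refine prod_lt W _ _ fun g _ => ?_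
      have e1 : g ((x * y ^ p : Eˣ) : E) - 1 = g (((x * y ^ p : Eˣ) : E) - 1) := by
        rw [map_sub, map_one]
      rw [e1, val_gal]
      have h3 := (hy (gw g⁻¹ W) (by
        rw [gw_up, mem_up]
        exact hv)).1
      rwa [Units.val_mul, Units.val_pow_eq_pow_val]
    rw [valW] at h2
    have h4 := (pow_lt_one_iff (e_ne W)).1 h2
    rwa [map_mul, map_pow, Units.val_mul, Units.val_pow_eq_pow_val] at h4
  · apply h.unit
    intro v hv
    obtain ⟨W, rfl⟩ := ex_bel (L := E) v
    have h2 : W.valuation E (algebraMap K E ((nrm K E x : Kˣ) : K)) = 1 := by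
      rw [norm_coe, map_prod]
      refine Finset.prod_eq_one fun g _ => ?_
      rw [val_gal]
      refine hx _ fun h0 => hv ?_
      rw [gw_up, mem_up] at h0
      exact h0
    rw [valW] at h2
    exact (pow_eq_one_iff.1 h2).resolve_right (e_ne W)

/-- Invariance of `Kil` under the Galois group. -/
theorem kil_act (S : Finset (HeightOneSpectrum (𝓞 K))) {f : Eˣ → ZMod p}
    (h : Kil p (up E S) f) (g : E ≃ₐ[K] E) : Kil p (up E S) (fun x => f (act g x)) := by
  refine ⟨fun x y => ?_, fun x hx => ?_, fun x hx => ?_⟩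
  · show f (act g (x * y)) = _
    rw [map_mul, h.hom]
  · apply h.loc
    obtain ⟨y, hy⟩ := hx
    refine ⟨act g y, fun W hW => ?_⟩
    have h3 := hy (gw g⁻¹ W) (by rwa [gw_up])
    have e1 : ((act g x : Eˣ) : E) * ((act g y : Eˣ) : E) ^ p - 1 =
        g ((x : E) * (y : E) ^ p - 1) := by
      rw [map_sub, map_one, map_mul, map_pow]
      rfl
    have e2 : W.valuation E (p : E) = (gw g⁻¹ W).valuation E (p : E) := by
      rw [← val_gal, map_natCast g]
    rw [e1, e2, val_gal]
    exact h3
  · apply h.unit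
    intro W hW
    have e1 : ((act g x : Eˣ) : E) = g (x : E) := rfl
    rw [e1, val_gal]
    refine hx _ fun h0 => hW ?_
    rwa [gw_up] at h0

theorem norm_act (g : E ≃ₐ[K] E) (x : Eˣ) :
    nrm K E (act g x) = nrm K E x := by
  apply Units.ext
  apply (algebraMap K E).injective
  show algebraMap K E (Algebra.norm K (g (x : E))) = algebraMap K E (Algebra.norm K (x : E))
  rw [Algebra.norm_eq_prod_automorphisms, Algebra.norm_eq_prod_automorphisms]
  exact Fintype.prod_equiv (Equiv.mulRight g) _ _ fun h => rfl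

end galois

end Pool.Agent.Helper44.PB
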