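import Pool.Agent.Helper44.PB.VLA

/-!
# Project B: the invariant line (`V_LINE`)
-/

set_option autoImplicit false
set_option linter.unusedSectionVars false

namespace Pool.Agent.Helper44.PB

open NumberField Polynomial Module IsDedekindDomain
open Pool.Agent.Helper51.RP Pool.Agent.Helper42.RD Pool.Agent.Helper42.PP Pool.Agent.Helper42.PP1
open Pool.Agent.Helper42.PB Pool.Agent.Helper76.PB
open Pool.Agent.Helper40.RS (bel gw val_smul bel_smul)
open Pool.Agent.Helper40.RD (valW ordW bel_of_above)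
open Pool.Agent.Helper32.PP (val_gal bel_gw norm_coe e_ne prod_lt prod_le' bel_bel mem_up)
open Pool.Agent.Helper96.PB (mem_upZ van_of_split)

section group

variable {K M₁ J M₂ : Type} [Field K] [NumberField K] [Field M₁] [NumberField M₁] [Field J]
  [NumberField J] [Field M₂] [NumberField M₂] [Algebra K M₁] [Algebra K J] [Algebra K M₂]
  [Algebra M₁ M₂] [Algebra J M₂] [IsScalarTower K M₁ M₂] [IsScalarTower K J M₂] [IsGalois K J]
  [IsGalois K M₂]

variable (K M₁ J M₂) in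
/-- The restriction to `J`. -/
noncomputable def resJ : (M₂ ≃ₐ[M₁] M₂) →* (J ≃ₐ[K] J) :=
  (AlgEquiv.restrictNormalHom J).comp (AlgEquiv.restrictScalarsHom K)

theorem resJ_comm (g : M₂ ≃ₐ[M₁] M₂) (x : J) :
    algebraMap J M₂ (resJ K M₁ J M₂ g x) = g (algebraMap J M₂ x) :=
  AlgEquiv.restrictNormal_commutes (g.restrictScalars K) J x

theorem resJ_inj (hlin : ∀ g : M₂ ≃ₐ[K] M₂,
    (∀ x : M₁, g (algebraMap M₁ M₂ x) = algebraMap M₁ M₂ x) →
    (∀ x : J, g (algebraMap J M₂ x) = algebraMap J M₂ x) → g = 1) :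
    Function.Injective (resJ K M₁ J M₂) := by
  rw [injective_iff_map_eq_one]
  intro g hg
  have h1 := hlin (g.restrictScalars K) (fun x => g.commutes x) (fun x => by
    have h2 := resJ_comm (K := K) g x
    rw [hg] at h2
    exact h2.symm)
  apply AlgEquiv.ext
  intro x
  exact DFunLike.congr_fun h1 x

theorem deg_eq {p l : ℕ} (hJ : finrank K J = p ^ l)
    (hcop : (finrank K M₁).Coprime p) (hinj : Function.Injective (resJ K M₁ J M₂)) :
    finrank M₁ M₂ = p ^ l := by
  have hG : IsGalois M₁ M₂ := IsGalois.tower_top_of_isGalois K M₁ M₂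
  have h1 : Nat.card (M₂ ≃ₐ[M₁] M₂) = finrank M₁ M₂ := IsGalois.card_aut_eq_finrank _ _
  have h2 : Nat.card (J ≃ₐ[K] J) = p ^ l := by rw [← hJ]; exact IsGalois.card_aut_eq_finrank _ _
  have h3 : finrank M₁ M₂ ∣ p ^ l := by
    rw [← h1, ← h2]
    exact Subgroup.card_dvd_of_injective _ hinj
  have h4 : p ^ l ∣ finrank K M₁ * finrank M₁ M₂ := by
    rw [finrank_mul_finrank, ← hJ, ← finrank_mul_finrank K J M₂]
    exact Dvd.intro _ rfl
  have h5 : p ^ l ∣ finrank M₁ M₂ :=
    Nat.Coprime.dvd_of_dvd_mul_left (Nat.Coprime.pow_left l hcop.symm) h4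
  exact Nat.dvd_antisymm h3 h5

/-- The subfields of degree `p`. -/
theorem subfields {p l : ℕ} [hp : Fact p.Prime] (hJ : finrank K J = p ^ (l + 1))
    [IsCyclic (J ≃ₐ[K] J)]
    (hcop : (finrank K M₁).Coprime p) (hinj : Function.Injective (resJ K M₁ J M₂)) :
    ∃ (J₁ : IntermediateField K J) (E₁ : IntermediateField M₁ M₂), finrank K J₁ = p ∧
      finrank M₁ E₁ = p ∧ IsGalois K J₁ ∧ IsGalois M₁ E₁ ∧
      ∀ x ∈ J₁, algebraMap J M₂ x ∈ E₁ := by
  have hG : IsGalois M₁ M₂ := IsGalois.tower_top_of_isGalois K M₁ M₂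
  have h1 : Nat.card (M₂ ≃ₐ[M₁] M₂) = finrank M₁ M₂ := IsGalois.card_aut_eq_finrank _ _
  have h2 : Nat.card (J ≃ₐ[K] J) = p ^ (l + 1) := by
    rw [← hJ]; exact IsGalois.card_aut_eq_finrank _ _
  have hsurj : Function.Surjective (resJ K M₁ J M₂) := by
    refine ((Nat.bijective_iff_injective_and_card _).2 ⟨hinj, ?_⟩).2
    rw [h1, h2, deg_eq hJ hcop hinj]
  obtain ⟨C, hC⟩ := Sylow.exists_subgroup_card_pow_prime (G := (J ≃ₐ[K] J)) p (n := l)
    (by rw [h2, pow_succ]; exact Dvd.intro _ rfl)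
  have hCi : C.index = p := by
    have h3 := C.card_mul_index
    rw [hC, h2, pow_succ] at h3
    exact Nat.eq_of_mul_eq_mul_left (pow_pos hp.out.pos l) h3
  have hCn : C.Normal := by
    have hcomm : ∀ a b : (J ≃ₐ[K] J), a * b = b * a := by
      let _ : CommGroup (J ≃ₐ[K] J) := IsCyclic.commGroup
      exact fun a b => mul_comm a b
    refine ⟨fun n hn g => ?_⟩
    rw [hcomm g n, mul_assoc, mul_inv_cancel, mul_one]
    exact hn
  have hDn : (C.comap (resJ K M₁ J M₂)).Normal := hCn.comap _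
  have hDi : (C.comap (resJ K M₁ J M₂)).index = p := by
    rw [Subgroup.index_comap_of_surjective _ hsurj, hCi]
  refine ⟨IntermediateField.fixedField C, IntermediateField.fixedField (C.comap (resJ K M₁ J M₂)),
    ?_, ?_, inferInstance, inferInstance, ?_⟩
  · rw [IntermediateField.finrank_eq_fixingSubgroup_index, IntermediateField.fixingSubgroup_fixedField, hCi]
  · rw [IntermediateField.finrank_eq_fixingSubgroup_index, IntermediateField.fixingSubgroup_fixedField, hDi]
  · intro x hx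
    rw [IntermediateField.mem_fixedField_iff] at hx ⊢
    intro g hg
    have h3 := hx _ (Subgroup.mem_comap.1 hg)
    rw [← resJ_comm (K := K), h3]

/-- Norms from `E₁` to `K` are norms from `J₁`. -/
theorem norm_sub (J₁ : IntermediateField K J) (E₁ : IntermediateField M₁ M₂)
    (h : ∀ x ∈ J₁, algebraMap J M₂ x ∈ E₁) (y : (E₁ : Type)ˣ) :
    ∃ z : (J₁ : Type)ˣ, nrm K M₁ (nrm M₁ E₁ y) = nrm K J₁ z := by
  let ι : J₁ →+* E₁ :=
    { toFun := fun x => ⟨algebraMap J M₂ x, h x x.2⟩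
      map_one' := Subtype.ext (map_one _)
      map_zero' := Subtype.ext (map_zero _)
      map_mul' := fun a b => Subtype.ext (map_mul _ _ _)
      map_add' := fun a b => Subtype.ext (map_add _ _ _) }
  let alg : Algebra J₁ E₁ := ι.toAlgebra
  have tow : IsScalarTower K J₁ E₁ := IsScalarTower.of_algebraMap_eq fun x => by
    apply Subtype.ext
    show algebraMap K M₂ x = algebraMap J M₂ (algebraMap K J x)
    exact IsScalarTower.algebraMap_apply K J M₂ x
  refine ⟨nrm J₁ E₁ y, Units.ext ?_⟩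
  show Algebra.norm K (Algebra.norm M₁ (y : E₁)) = Algebra.norm K (Algebra.norm J₁ (y : E₁))
  rw [Algebra.norm_norm, Algebra.norm_norm]

end group

theorem up_self {K : Type} [Field K] [NumberField K] (S : Finset (HeightOneSpectrum (𝓞 K)))
    (v : HeightOneSpectrum (𝓞 K)) : v ∈ up K S ↔ v ∈ S := by
  rw [mem_up]
  have e : bel K v = v := by
    apply HeightOneSpectrum.ext
    show v.asIdeal.comap (algebraMap (𝓞 K) (𝓞 K)) = v.asIdeal
    exact Ideal.comap_id _
  rw [e]

theorem val_p {F E : Type} [Field F] [NumberField F] [Field E] [NumberField E] [Algebra F E]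
    (p : ℕ) (W : HeightOneSpectrum (𝓞 E)) :
    W.valuation E (p : E) < 1 ↔ (bel F W).valuation F (p : F) < 1 := by
  have e2 : (p : E) = algebraMap F E (p : F) := by rw [map_natCast]
  rw [e2, valW]
  exact pow_lt_one_iff (e_ne W)

theorem nrm_base {F E : Type} [Field F] [Field E] [Algebra F E] [FiniteDimensional F E] (x : Fˣ) :
    nrm F E (inc F E x) = x ^ finrank F E := by
  apply Units.ext
  show Algebra.norm F (algebraMap F E (x : F)) = ((x ^ finrank F E : Fˣ) : F)
  rw [Algebra.norm_algebraMap, Units.val_pow_eq_pow_val]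

theorem hom_pow {p : ℕ} {F : Type} [Field F] {f : Fˣ → ZMod p} (hf : Hom f) (x : Fˣ) (n : ℕ) :
    f (x ^ n) = n * f x := by
  induction n with
  | zero =>
    have h := hf 1 1
    rw [mul_one] at h
    rw [pow_zero, Nat.cast_zero, zero_mul]
    exact left_eq_add.1 h
  | succ n ih => rw [pow_succ, hf, ih, Nat.cast_succ]; ring

theorem kil_zero {p : ℕ} {F : Type} [Field F] [NumberField F] (Z : Set (HeightOneSpectrum (𝓞 F))) :
    Kil p Z (fun _ : Fˣ => (0 : ZMod p)) :=
  ⟨fun _ _ => (add_zero _).symm, fun _ _ => rfl, fun _ _ => rfl⟩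

theorem v_line (h1 : X_LIF) (h2 : X_DN) (h3 : X_FI) : V_LINE := by
  intro p hp K M K₁ M₁ J M₂ _ _ _ _ _ _ _ _ _ _ _ _ _ _ _ _ _ _ _ _ _ _ _ _ ε δ P a₀ hB B D
  have := hB.sit.st1
  have := hB.sit.st2
  have := hB.sit.gM
  have := hB.sit.gMK
  have := hB.t1
  have := hB.t4
  have := hB.gJ
  have := hB.gM₂
  have := hB.cycJ
  have hG12 : IsGalois M₁ M₂ := IsGalois.tower_top_of_isGalois K M₁ M₂
  have hGJ2 : IsGalois J M₂ := IsGalois.tower_top_of_isGalois K J M₂
  have hcop : (finrank K M₁).Coprime p := by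
    rw [← finrank_mul_finrank K M M₁]
    exact Nat.Coprime.mul_left hB.sit.copm hB.sit.c1
  have hinj : Function.Injective (resJ K M₁ J M₂) := resJ_inj hB.lin₂
  obtain ⟨hZfin, -, hab', -⟩ := Pool.Agent.Helper16.PP.p_upr p K M₁ B.S
  have hab : abP p M₁ ⊆ up M₁ B.S := fun w hw => hab' B.abp w hw
  have hunr2 : UnrZ K M₂ (B.S : Set (HeightOneSpectrum (𝓞 K))) :=
    fun v hv W hW x => D.unr v hv W hW x
  have hunr12 : UnrZ M₁ M₂ (up M₁ B.S) := unrZ_up hunr2
  have hprM₁ : PrZ M₁ (up M₁ B.S) := B.prMK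
  have hupup : upZ M₂ (up M₁ B.S) = up M₂ B.S := upZ_upZ _
  have hprM₂ : PrZ M₂ (upZ M₂ (up M₁ B.S)) := by
    rw [hupup]
    exact pr_equiv (IntermediateField.topEquiv (F := K) (E := M₂)) B.S (D.pr ⊤)
  have hfree2 : ∀ W : HeightOneSpectrum (𝓞 M₂), W.valuation M₂ (p : M₂) < 1 → FreeP M₁ W := by
    intro W hW g hg
    have h4 : FreeP K (bel J W) := hB.splJ _ ((val_p p W).1 hW)
    have h5 := hB.lin₂ (g.restrictScalars K) (fun x => g.commutes x)
      (fun x => Pool.Agent.Helper79.PP.fix_of_free W h4 (g.restrictScalars K) hg x)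
    apply AlgEquiv.ext
    intro x
    exact DFunLike.congr_fun h5 x
  obtain ⟨l, hl⟩ := hB.degJ
  rcases l with _ | l
  · -- `M₂ = M₁`
    have h4 := deg_eq hl hcop hinj
    rw [pow_zero] at h4
    refine ⟨fun _ => 0, kil_zero _, fun _ _ => rfl, fun f _ hN => ⟨0, fun x => ?_⟩⟩
    have h5 := hN (inc M₁ M₂ x)
    rw [nrm_base, h4, pow_one] at h5
    rw [h5, zero_mul]
  · obtain ⟨J₁, E₁, hJ₁, hE₁, hGJ₁, hGE₁, hJE⟩ := subfields hl hcop hinj
    have hcyc : IsCyclic (M₂ ≃ₐ[M₁] M₂) := isCyclic_of_injective _ hinj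
    have hunrE : UnrZ M₁ E₁ (up M₁ B.S) := unrZ_low hunr12
    have hprE : PrZ E₁ (upZ E₁ (up M₁ B.S)) := by
      have h5 : upZ E₁ (up M₁ B.S) = up E₁ B.S := upZ_upZ _
      rw [h5]
      let e : (E₁.restrictScalars K) ≃ₐ[K] E₁ :=
        { toFun := fun x => ⟨x.1, x.2⟩
          invFun := fun x => ⟨x.1, x.2⟩
          left_inv := fun _ => rfl
          right_inv := fun _ => rfl
          map_mul' := fun _ _ => rfl
          map_add' := fun _ _ => rfl
          commutes' := fun _ => rfl }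
      exact pr_equiv e B.S (D.pr (E₁.restrictScalars K))
    have hvan : ∀ f : M₁ˣ → ZMod p, Kil p (up M₁ B.S) f → (∀ y : M₂ˣ, f (nrm M₁ M₂ y) = 0) →
        ∀ w ∈ SplZ E₁ (up M₁ B.S), Van (up M₁ B.S) f w :=
      h1 p M₁ E₁ M₂ (algebraMap K₁ M₁ ε)
        (hB.sit.prim.map_of_injective (algebraMap K₁ M₁).injective) hE₁
        ⟨l + 1, deg_eq hl hcop hinj⟩ _ hZfin hab hunr12 hprM₁ hprM₂ hfree2
    have hline := h2 p M₁ E₁ hE₁ _ hZfin hab hunrE hprM₁
    by_cases hp2 : p = 2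
    · by_cases hV : ∃ f : M₁ˣ → ZMod p, Kil p (up M₁ B.S) f ∧ (∀ y : M₂ˣ, f (nrm M₁ M₂ y) = 0) ∧
        ∃ x, f x ≠ 0
      · obtain ⟨s, hs, hsN, hs0⟩ := hV
        refine ⟨s, hs, fun g x => ?_, fun f hf hfN =>
          hline s f hs hf (hvan s hs hsN) (hvan f hf hfN) hs0⟩
        obtain ⟨c, hc⟩ := hline s (fun x => s (act g x)) hs (kil_act B.S hs g) (hvan s hs hsN)
          (hvan _ (kil_act B.S hs g) (fun y => by
            obtain ⟨g', hg'⟩ : ∃ g' : M₂ ≃ₐ[K] M₂, ∀ x : M₁,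
                g' (algebraMap M₁ M₂ x) = algebraMap M₁ M₂ (g x) :=
              ⟨g.liftNormal M₂, fun x => AlgEquiv.liftNormal_commutes g M₂ x⟩
            obtain ⟨-, h5, -⟩ := Pool.Agent.Helper32.PP.b_nor Pool.Agent.Helper16.PP.p_upr p K M₁ M₂
              B.S
            rw [← (h5 g' g hg' y).1]
            exact hsN _)) hs0
        have hc0 : c ≠ 0 := by
          rintro rfl
          obtain ⟨x₀, hx₀⟩ := hs0
          apply hx₀
          have h6 := hc (act g⁻¹ x₀)
          rw [zero_mul] at h6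
          have h7 : act g (act g⁻¹ x₀) = x₀ := by
            apply Units.ext
            show g (g⁻¹ (x₀ : M₁)) = x₀
            show (g * g⁻¹) (x₀ : M₁) = x₀
            rw [mul_inv_cancel]
            rfl
          have h6' : s (act g (act g⁻¹ x₀)) = 0 := h6
          rwa [h7] at h6'
        have hc1 : c = 1 := by
          subst hp2
          exact Fin.eq_one_of_ne_zero c hc0
        have h8 := hc x
        rw [hc1, one_mul] at h8
        exact h8
      · push Not at hV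
        exact ⟨fun _ => 0, kil_zero _, fun _ _ => rfl, fun f hf hN => ⟨0, fun x => by
          rw [hV f hf hN x, zero_mul]⟩⟩
    · have hunrJ : UnrZ K J₁ (B.S : Set (HeightOneSpectrum (𝓞 K))) :=
        unrZ_low (L := J) (unrZ_low (E := J) hunr2)
      have hprK : PrZ K (B.S : Set (HeightOneSpectrum (𝓞 K))) := by
        intro n
        obtain ⟨x, hx⟩ := pr_equiv (IntermediateField.botEquiv K M₂) B.S (D.pr ⊥) n
        exact ⟨x, fun w hw => hx w fun h0 => hw ((up_self B.S w).1 h0)⟩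
      obtain ⟨σ₀, hσ, ⟨x₀, hx₀⟩, hσN, -⟩ := h3 p K J₁ hJ₁ (fun h => absurd h hp2)
        (B.S : Set (HeightOneSpectrum (𝓞 K))) B.S.finite_toSet (fun v hv => B.abp v hv) hunrJ hprK
        (fun W hW => by
          obtain ⟨W', rfl⟩ := ex_bel (L := J) W
          exact Pool.Agent.Helper79.PP.free_bel W' (hB.splJ W' ((val_p p W').2 hW)))
      have hs := kil_norm (E := M₁) B.S hσ
      have hsE : ∀ y : (E₁ : Type)ˣ, σ₀ (nrm K M₁ (nrm M₁ E₁ y)) = 0 := by
        intro y
        obtain ⟨z, hz⟩ := norm_sub J₁ E₁ hJE y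
        rw [hz, hσN]
      have hsvan : ∀ w ∈ SplZ E₁ (up M₁ B.S),
          Van (up M₁ B.S) (fun x : M₁ˣ => σ₀ (nrm K M₁ x)) w :=
        fun w hw => van_of_split p hZfin hprE hs hsE hw
      refine ⟨fun x : M₁ˣ => σ₀ (nrm K M₁ x), hs, fun g x => ?_, fun f hf hfN =>
        hline _ f hs hf hsvan (hvan f hf hfN) ⟨inc K M₁ x₀, ?_⟩⟩
      · show σ₀ (nrm K M₁ (act g x)) = _
        rw [norm_act]
      · show σ₀ (nrm K M₁ (inc K M₁ x₀)) ≠ 0
        rw [nrm_base, hom_pow hσ.hom]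
        refine mul_ne_zero ?_ hx₀
        rw [Ne, ZMod.natCast_eq_zero_iff]
        intro h5
        have h6 := Nat.Coprime.eq_one_of_dvd hcop.symm h5
        exact hp.out.one_lt.ne' h6

end Pool.Agent.Helper44.PB
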